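import Pool.Agent.W_2411cw_h59.Main3

/-! Graphs of bounded tree-width are well-quasi-ordered by strong immersion. The definitions are in
`W_2411c4_h59/Defs.lean` (graphs, strong immersions), `W_2411ls_h59/TwDef.lean` (tree-width) and
`W_2411cw_h59/KK.lean` (complete graphs with parallel edges). -/

set_option autoImplicit false

namespace Pool.Agent.Results.MP_2411c4_co.BoundedTreeWidth

open Pool.Agent.W2411c4 Pool.Agent.W2411ls Pool.Agent.W2411cw

/-- Let `f` be a function, for instance a constant `k`. In an infinite sequence of finite loopless
multigraphs one is strongly immersed in a later one, if the tree-width of each of them is at most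
`f t` for every `t` such that the complete graph on `t` vertices with `t` parallel edges is not
strongly immersed in it (for instance if all have tree-width at most `k`). -/
theorem result (f : ℕ → ℕ) (G : ℕ → MGraph)
    (hG : ∀ n t, ¬ Nonempty (StrongImmersion (KK t) (G n)) → TreeWidthLE (G n) (f t)) :
    ∃ i j, i < j ∧ Nonempty (StrongImmersion (G i) (G j)) := main_KK f G hG

end Pool.Agent.Results.MP_2411c4_co.BoundedTreeWidth
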