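import Pool.Agent.W_2411cw_h59.Main3

/-! Graphs of bounded clique-width are well-quasi-ordered by strong immersion. The definitions are in
`W_2411c4_h59/Defs.lean` (graphs, strong immersions) and `W_2411cw_h59/CwDef.lean` (clique-width). -/

set_option autoImplicit false

namespace Pool.Agent.Results.MP_2411c4_co.CliqueWidth

open Pool.Agent.W2411c4 Pool.Agent.W2411cw

/-- In an infinite sequence of finite loopless multigraphs of clique-width at most `k` (parallel edges
are ignored for the clique-width) one is strongly immersed in a later one. -/
theorem result (k : ℕ) (G : ℕ → MGraph) (hG : ∀ n, CliqueWidthLE k (G n)) :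
    ∃ i j, i < j ∧ Nonempty (StrongImmersion (G i) (G j)) := main_cw k G hG

end Pool.Agent.Results.MP_2411c4_co.CliqueWidth
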