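import Pool.Agent.W_2411sw_h59.EqC

/-! Weak immersion for labelled graphs of bounded degree and strong immersion for labelled graphs of
arbitrary degree. The definitions are in `W_2411c4_h59/Defs.lean` (graphs, strong immersions),
`W_2411wi_h30/WeakDef.lean` (weak immersions, bounded degree) and `W_2411sw_h59/EqDef.lean`. -/

set_option autoImplicit false

namespace Pool.Agent.Results.MP_2411c4_co.LabelledEquivalence

open Pool.Agent.W2411c4 Pool.Agent.W2411wi Pool.Agent.W2411sw

/-- (1) These are equivalent: `LabelledWeakWQO`, that graphs of bounded degree with labels in a
well-quasi-order are well-quasi-ordered by weak immersions that do not decrease labels, and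
`LabelledStrongWQO`, that graphs of arbitrary degree which do not strongly immerse a fixed graph `H`,
with labels in a well-quasi-order, are well-quasi-ordered by strong immersions that do not decrease
labels.
(2) `LabelledStrongWQO` implies that all finite loopless multigraphs are well-quasi-ordered by strong
immersion. -/
theorem result : (LabelledWeakWQO ↔ LabelledStrongWQO) ∧
    (LabelledStrongWQO → ∀ G : ℕ → MGraph, ∃ i j, i < j ∧ Nonempty (StrongImmersion (G i) (G j))) :=
  ⟨weak_iff_strong, all_of_strong⟩

end Pool.Agent.Results.MP_2411c4_co.LabelledEquivalence
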